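import Pool.Agent.H.MP_a47eec_al.h48.Main

set_option autoImplicit false

namespace Pool.Agent.Results.MP_a47eec_al.EveryField

open Pool.Agent.H.MP_a47eec_al.h48

/-- The free nonassociative algebra over `F` on the generators `x_0, x_1, x_2, …`. -/
abbrev Free (F : Type) [Field F] : Type := FreeNonUnitalNonAssocAlgebra F ℕ

/-- The ideal of the free nonassociative algebra generated by all `(a, a, b)` and `(b, a, a)`: the
smallest subspace which contains them and is closed under multiplication by arbitrary elements on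
both sides. The free alternative algebra is the quotient by this ideal. -/
noncomputable def altIdeal (F : Type) [Field F] : Submodule F (Free F) :=
  sInf {I | (∀ a ∈ I, ∀ b, a * b ∈ I ∧ b * a ∈ I) ∧
    ∀ a b, (a * a) * b - a * (a * b) ∈ I ∧ (b * a) * a - b * (a * a) ∈ I}

/-- The left-normed product `(…((v 0 v 1) v 2)…) v n`. -/
def leftNormed {A : Type} [Mul A] : (n : ℕ) → (Fin (n + 1) → A) → A
  | 0, v => v 0
  | n + 1, v => leftNormed n (fun i => v i.castSucc) * v (Fin.last (n + 1))

/-- The element `∑_σ sgn(σ) (…(x_{9k+σ(0)} x_{9k+σ(1)})…) x_{9k+σ(8)}` of the free algebra, the sum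
over all permutations of `{0, …, 8}`. -/
noncomputable def alt9 (F : Type) [Field F] (k : ℕ) : Free F :=
  ∑ σ : Equiv.Perm (Fin 9), ((Equiv.Perm.sign σ : ℤ) : F) •
    leftNormed 8 fun i => FreeNonUnitalNonAssocAlgebra.of F (9 * k + (σ i).val)

/-- `f` is an identity of the split octonions over `F`. -/
def IsOctIdentity (F : Type) [Field F] [CharZero F] (f : Free F) : Prop :=
  ∀ ψ : ℕ → Oct F, FreeNonUnitalNonAssocAlgebra.lift F ψ f = 0

theorem leftNormed_eq_W (F : Type) [Field F] (C : Type) [NonUnitalNonAssocRing C] [Module F C]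
    [IsScalarTower F C C] [SMulCommClass F C C] (n : ℕ) (v : Fin (n + 1) → C) :
    leftNormed n v = W F C n v := by
  induction n with
  | zero => rfl
  | succ n ih => rw [W_succ, ← ih]; rfl

theorem map_leftNormed {F : Type} [Field F] {A C : Type} [NonUnitalNonAssocRing A] [Module F A]
    [NonUnitalNonAssocRing C] [Module F C] (θ : A →ₙₐ[F] C) (n : ℕ) (v : Fin (n + 1) → A) :
    θ (leftNormed n v) = leftNormed n fun i => θ (v i) := by
  induction n with
  | zero => rfl
  | succ n ih => simp only [leftNormed, map_mul, ih]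

theorem lift_alt9 (F : Type) [Field F] (C : Type) [NonUnitalNonAssocRing C] [Module F C]
    [IsScalarTower F C C] [SMulCommClass F C C] (k : ℕ) (ψ : ℕ → C) :
    FreeNonUnitalNonAssocAlgebra.lift F ψ (alt9 F k)
      = MultilinearMap.alternatization (W F C 8) (fun i : Fin 9 => ψ (9 * k + i.val)) := by
  rw [alt9, map_sum, MultilinearMap.alternatization_apply]
  refine Finset.sum_congr rfl fun σ _ => ?_
  rw [map_smul, map_leftNormed, leftNormed_eq_W F, MultilinearMap.domDomCongr_apply,
    Units.smul_def, ← Int.cast_smul_eq_zsmul F]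
  simp only [FreeNonUnitalNonAssocAlgebra.lift_of_apply]

theorem altIdeal_le (F : Type) [Field F] [CharZero F] {a : Free F} (ha : a ∈ altIdeal F) :
    FreeNonUnitalNonAssocAlgebra.lift F (phi F) a = 0 := by
  set θ := FreeNonUnitalNonAssocAlgebra.lift F (phi F) with hθ
  let I : Submodule F (Free F) :=
    { carrier := {a | θ a = 0}
      add_mem' := fun {a b} ha hb => by
        have ha' : θ a = 0 := ha
        have hb' : θ b = 0 := hb
        show θ (a + b) = 0
        rw [map_add, ha', hb', add_zero]
      zero_mem' := map_zero θ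
      smul_mem' := fun c a ha => by
        have ha' : θ a = 0 := ha
        show θ (c • a) = 0
        rw [map_smul, ha', smul_zero] }
  have hI : altIdeal F ≤ I := by
    refine sInf_le ⟨fun a ha b => ⟨?_, ?_⟩, fun a b => ⟨?_, ?_⟩⟩
    · have ha' : θ a = 0 := ha
      show θ (a * b) = 0
      rw [map_mul, ha', zero_mul]
    · have ha' : θ a = 0 := ha
      show θ (b * a) = 0
      rw [map_mul, ha', mul_zero]
    · show θ ((a * a) * b - a * (a * b)) = 0
      rw [map_sub, map_mul, map_mul, map_mul, map_mul, Alt.left_alt, sub_self]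
    · show θ ((b * a) * a - b * (a * a)) = 0
      rw [map_sub, map_mul, map_mul, map_mul, map_mul, Alt.right_alt, sub_self]
  exact hI ha

theorem phi_alt9 (F : Type) [Field F] [CharZero F] (k : ℕ) (hk : k < 3) :
    FreeNonUnitalNonAssocAlgebra.lift F (phi F) (alt9 F k) = emb (PP k hk) := by
  rw [lift_alt9, phi_blk k hk, alternatization_emb, PP]

/-- **The ideal of identities of the split octonions is not associative, over every field of
characteristic `0`.** -/
theorem result (F : Type) [Field F] [CharZero F] :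
    IsOctIdentity F (alt9 F 0) ∧ IsOctIdentity F (alt9 F 1) ∧
      IsOctIdentity F (alt9 F 2 * FreeNonUnitalNonAssocAlgebra.of F 27) ∧
      (alt9 F 0 * alt9 F 1) * (alt9 F 2 * FreeNonUnitalNonAssocAlgebra.of F 27) -
        alt9 F 0 * (alt9 F 1 * (alt9 F 2 * FreeNonUnitalNonAssocAlgebra.of F 27)) ∉
          altIdeal F := by
  have hid : ∀ (k : ℕ) (ψ : ℕ → Oct F), FreeNonUnitalNonAssocAlgebra.lift F ψ (alt9 F k) = 0 := by
    intro k ψ
    rw [lift_alt9]
    exact alternatization_eq_zero F (Oct F) Oct.finrank_lt _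
  refine ⟨hid 0, hid 1, fun ψ => ?_, fun hmem => ?_⟩
  · rw [map_mul, hid, zero_mul]
  · have h := altIdeal_le F hmem
    have h27 : phi F 27 = mk 0 1 := by rw [phi, dif_neg (by norm_num)]
    simp only [map_sub, map_mul] at h
    rw [phi_alt9 F 0 (by norm_num),
      phi_alt9 F 1 (by norm_num), phi_alt9 F 2 (by norm_num),
      FreeNonUnitalNonAssocAlgebra.lift_of_apply, h27, emb_mul_m, emb_mul, emb_even_mul,
      emb_odd_mul_odd (PP_odd 1 _) (PP_odd 2 _), mul_zero, sub_zero] at h
    · exact PPP_ne_zero (congrArg Prod.snd h)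
    · rw [map_mul, PP_odd, PP_odd, neg_mul_neg]

end Pool.Agent.Results.MP_a47eec_al.EveryField
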